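import Pool.Agent.Helper64.LN.GoalsB

set_option autoImplicit false

/-! FGB of project LN. -/

open Topology Filter Set Metric UpperHalfPlane
open scoped MatrixGroups

namespace Pool.Agent.Helper34.LN

open Pool.Agent.Helper64.LN
open Pool.Agent.Helper64

theorem isOpenMap_of_uni.{v} {X : Type v} [TopologicalSpace X] {B : Set X} {u : ℍ → X}
    (hu : Uni B u) : IsOpenMap u := by
  have h1 := hu.cov.isLocalHomeomorphOn
  have h2 : u ⁻¹' Bᶜ = univ := by
    apply eq_univ_of_forall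
    intro z
    rw [mem_preimage, ← hu.range]
    exact mem_range_self z
  rw [h2] at h1
  exact (isLocalHomeomorph_iff_isLocalHomeomorphOn_univ.2 h1).isOpenMap

theorem goalFGB.{v} (h0 : GoalG0.{v}) : GoalFGB.{v} := by
  intro X _ _ B u hu L hL hLB z hz
  have hG := h0 X B u hu
  have hop := isOpenMap_of_uni hu
  obtain ⟨t, ht⟩ := hL.elim_finite_subcover (fun w : ℍ => u '' ball w 1)
    (fun w => hop _ isOpen_ball) (by
      intro x hx
      have hxB : x ∈ Set.range u := by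
        rw [hu.range]
        exact fun hb => (Set.disjoint_left.1 hLB) hx hb
      obtain ⟨w, rfl⟩ := hxB
      exact mem_iUnion.2 ⟨w, w, mem_ball_self one_pos, rfl⟩)
  set V : Set ℍ := ball z 1 ∪ ⋃ w ∈ t, ball w 1 with hV
  set K' : Set ℍ := closedBall z 1 ∪ ⋃ w ∈ t, closedBall w 1 with hK'
  have hVo : IsOpen V := isOpen_ball.union (isOpen_biUnion fun w _ => isOpen_ball)
  have hVK : V ⊆ K' := by
    apply union_subset_union ball_subset_closedBall
    exact iUnion₂_mono fun w _ => ball_subset_closedBall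
  have hKc : IsCompact K' := by
    apply (isCompact_closedBall z 1).union
    exact t.isCompact_biUnion fun w _ => isCompact_closedBall w 1
  have hfin := hG.disc K' hKc
  set F : Set (ℍ ≃ₜ ℍ) := mh '' {g : SL(2, ℝ) | g ∈ PQ.deckG u ∧ ∃ z ∈ K', g • z ∈ K'} with hF
  have hFd : F ⊆ deck u := by
    rintro _ ⟨g, hg, rfl⟩
    exact ⟨g, hg.1, rfl⟩
  refine ⟨F, hfin.image _, hFd, ?_⟩
  rintro g hg ⟨σ, hσ0, hσ1, hσ⟩
  set N := Subgroup.closure F with hN
  have hNd : N ≤ deck u := (Subgroup.closure_le _).2 hFd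
  have key : ∀ h ∈ deck u, ∀ v ∈ V, h v ∈ V → h ∈ N := by
    rintro _ ⟨g0, hg0, rfl⟩ v hv hv'
    exact Subgroup.subset_closure ⟨g0, ⟨hg0, v, hVK hv, hVK hv'⟩, rfl⟩
  set T₁ : Set unitInterval := {s | ∃ k ∈ N, k⁻¹ (σ s) ∈ V} with hT1
  set T₂ : Set unitInterval := {s | ∃ k ∈ deck u, k ∉ N ∧ k⁻¹ (σ s) ∈ V} with hT2
  have ho : ∀ k : ℍ ≃ₜ ℍ, IsOpen {s | k⁻¹ (σ s) ∈ V} := by
    intro k
    exact hVo.preimage ((k⁻¹).continuous.comp σ.continuous)
  have o1 : IsOpen T₁ := by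
    have : T₁ = ⋃ k ∈ N, {s | k⁻¹ (σ s) ∈ V} := by
      ext s
      simp [hT1]
    rw [this]
    exact isOpen_biUnion fun k _ => ho k
  have o2 : IsOpen T₂ := by
    have : T₂ = ⋃ k ∈ {k | k ∈ deck u ∧ k ∉ N}, {s | k⁻¹ (σ s) ∈ V} := by
      ext s
      simp [hT2, and_assoc]
    rw [this]
    exact isOpen_biUnion fun k _ => ho k
  have hcov : ∀ s, s ∈ T₁ ∨ s ∈ T₂ := by
    intro s
    have h1 := ht (hσ s)
    rw [mem_iUnion₂] at h1
    obtain ⟨w, hw, v, hv, hvs⟩ := h1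
    obtain ⟨k0, hk0, hk0'⟩ := hu.deck v (σ s) hvs
    have hk : mh k0 ∈ deck u := ⟨k0, hk0', rfl⟩
    have hkv : (mh k0)⁻¹ (σ s) = v := by
      rw [← hk0]
      exact (mh k0).symm_apply_apply v
    have hvV : v ∈ V := Or.inr (mem_iUnion₂.2 ⟨w, hw, hv⟩)
    by_cases hkN : mh k0 ∈ N
    · left
      exact ⟨mh k0, hkN, by rw [hkv]; exact hvV⟩
    · right
      exact ⟨mh k0, hk, hkN, by rw [hkv]; exact hvV⟩
  have hdis : ∀ s, s ∈ T₁ → s ∉ T₂ := by
    rintro s ⟨k, hk, hks⟩ ⟨k', hk', hk'N, hk's⟩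
    apply hk'N
    have h1 : k⁻¹ * k' ∈ N := by
      apply key _ ((deck u).mul_mem ((deck u).inv_mem (hNd hk)) hk') _ hk's
      change k⁻¹ (k' (k'⁻¹ (σ s))) ∈ V
      have : k' (k'⁻¹ (σ s)) = σ s := k'.apply_symm_apply _
      rw [this]
      exact hks
    have h2 := N.mul_mem hk h1
    rwa [mul_inv_cancel_left] at h2
  have hcl : IsClopen T₁ := by
    refine ⟨?_, o1⟩
    have : T₁ = T₂ᶜ := by
      ext s
      constructor
      · exact hdis s
      · intro h
        exact (hcov s).resolve_right h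
    rw [this]
    exact o2.isClosed_compl
  have h0T : (0 : unitInterval) ∈ T₁ := by
    refine ⟨1, N.one_mem, ?_⟩
    rw [hσ0]
    left
    rw [inv_one]
    exact mem_ball_self one_pos
  have huniv : T₁ = univ := by
    rcases isClopen_iff.1 hcl with h | h
    · rw [h] at h0T
      exact absurd h0T (notMem_empty _)
    · exact h
  have h1T : (1 : unitInterval) ∈ T₁ := by rw [huniv]; exact mem_univ _
  obtain ⟨k, hk, hks⟩ := h1T
  rw [hσ1] at hks
  have h1 : k⁻¹ * g ∈ N := by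
    apply key _ ((deck u).mul_mem ((deck u).inv_mem (hNd hk)) hg) z
      (Or.inl (mem_ball_self one_pos))
    exact hks
  have h2 := N.mul_mem hk h1
  rwa [mul_inv_cancel_left] at h2

end Pool.Agent.Helper34.LN
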