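import Pool.Agent.Helper64.LN.GoalsA

set_option autoImplicit false

/-! GE3 of project LN. -/

namespace Pool.Agent.Helper34.LN

open Pool.Agent.Helper64.LN

section grp
variable {H : Type} [Group H]

theorem nc_inv {a b : H} (h : Nc a b) : Nc a b⁻¹ := fun e =>
  h ((Commute.inv_right_iff (a := a) (b := b)).1 e)

theorem nc_conj {a b : H} (h : Nc a b) : Nc a (a * b * a⁻¹) := by
  intro e
  apply h
  have e1 : a * (a * b * a⁻¹) = a * b := by rw [e]; group
  have e2 : a * b * a⁻¹ = b := mul_left_cancel e1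
  exact mul_inv_eq_iff_eq_mul.1 e2

theorem nc_conj' {a b : H} (h : Nc a b) : Nc a (a⁻¹ * b * a) := by
  intro e
  apply h
  have e1 : b * a = a⁻¹ * b * a * a := by rw [← e]; group
  have e2 : b = a⁻¹ * b * a := mul_right_cancel e1
  calc a * b = a * (a⁻¹ * b * a) := by rw [← e2]
    _ = b * a := by group

theorem ne_one_of_nc {a b : H} (h : Nc a b) : b ≠ 1 := by
  rintro rfl
  exact h (by simp)

end grp

theorem real_near (k P Q m n : ℝ) (hk : 1 < k) (hP : P < 0) (hQ : Q < 0)
    (hm : (m - P) * (m - Q) < 0) (hn : (n - P) * (n - Q) < 0)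
    (h : 0 ≤ (k * P - P) * (k * P - Q) * ((k * Q - P) * (k * Q - Q))) :
    |Real.log (-m) / Real.log k - Real.log (-n) / Real.log k| < 1 := by
  wlog hPQ : Q < P generalizing P Q
  · have hle : P ≤ Q := not_lt.1 hPQ
    have hne : P ≠ Q := by
      rintro rfl
      nlinarith [mul_self_nonneg (m - P)]
    apply this Q P hQ hP
    · rw [mul_comm]; exact hm
    · rw [mul_comm]; exact hn
    · have e : (k * Q - Q) * (k * Q - P) * ((k * P - Q) * (k * P - P)) =
        (k * P - P) * (k * P - Q) * ((k * Q - P) * (k * Q - Q)) := by ring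
      rw [e]; exact h
    · exact lt_of_le_of_ne hle hne
  have key : ∀ z, (z - P) * (z - Q) < 0 → Q < z ∧ z < P := by
    intro z hz
    constructor
    · by_contra hcon
      push Not at hcon
      nlinarith [mul_nonneg (sub_nonneg.2 hcon) (sub_nonneg.2 (hcon.trans hPQ.le))]
    · by_contra hcon
      push Not at hcon
      nlinarith [mul_nonneg (sub_nonneg.2 hcon) (sub_nonneg.2 (hPQ.le.trans hcon))]
  obtain ⟨m1, m2⟩ := key m hm
  obtain ⟨n1, n2⟩ := key n hn
  have hkPQ : k * P ≤ Q := by
    by_contra hcon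
    push Not at hcon
    have a1 : k * P - P < 0 := by nlinarith
    have a2 : 0 < k * P - Q := by linarith
    have a3 : k * Q - P < 0 := by nlinarith
    have a4 : k * Q - Q < 0 := by nlinarith
    have b1 : (k * P - P) * (k * P - Q) < 0 := mul_neg_of_neg_of_pos a1 a2
    have b2 : 0 < (k * Q - P) * (k * Q - Q) := mul_pos_of_neg_of_neg a3 a4
    have b3 := mul_neg_of_neg_of_pos b1 b2
    linarith
  have hlk : 0 < Real.log k := Real.log_pos hk
  have step : ∀ u v : ℝ, Q < u → u < P → Q < v → v < P →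
      Real.log (-u) < Real.log k + Real.log (-v) := by
    intro u v hu1 hu2 hv1 hv2
    rw [← Real.log_mul (by linarith) (by linarith)]
    apply Real.log_lt_log (by linarith)
    nlinarith
  rw [← sub_div, abs_div, abs_of_pos hlk, div_lt_one hlk, abs_lt]
  have s1 := step m n m1 m2 n1 n2
  have s2 := step n m n1 n2 m1 m2
  constructor <;> linarith

theorem real_sep (x y P Q : ℝ) (hxy : x * y < 0) (hP : P < 0) (hQ : Q < 0)
    (h : (x - P) * (x - Q) * ((y - P) * (y - Q)) < 0) :
    (min x y - P) * (min x y - Q) < 0 := by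
  rcases mul_neg_iff.1 hxy with ⟨h1, h2⟩ | ⟨h1, h2⟩
  · rw [min_eq_right (by linarith)]
    have a : 0 < (x - P) * (x - Q) := mul_pos (by linarith) (by linarith)
    by_contra hcon
    push Not at hcon
    have := mul_nonneg a.le hcon
    linarith
  · rw [min_eq_left (by linarith)]
    have a : 0 < (y - P) * (y - Q) := mul_pos (by linarith) (by linarith)
    by_contra hcon
    push Not at hcon
    have := mul_nonneg hcon a.le
    linarith

theorem real_sep' (x y P Q : ℝ) (hxy : x * y < 0) (hP : 0 < P) (hQ : 0 < Q)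
    (h : (x - P) * (x - Q) * ((y - P) * (y - Q)) < 0) :
    (max x y - P) * (max x y - Q) < 0 := by
  have h1 := real_sep (-x) (-y) (-P) (-Q) (by linarith) (by linarith) (by linarith) (by
    have e : (-x - -P) * (-x - -Q) * ((-y - -P) * (-y - -Q)) =
      (x - P) * (x - Q) * ((y - P) * (y - Q)) := by ring
    rw [e]; exact h)
  rw [min_neg_neg] at h1
  have e : (-max x y - -P) * (-max x y - -Q) = (max x y - P) * (max x y - Q) := by ring
  rw [e] at h1
  exact h1

theorem goalGE3 : GoalGE3 := by
  intro H _ D Sp hy τ κ G C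
  refine ⟨?_, ?_⟩
  · intro a ha a1 ha1 b hb c hc hab hac h1b h1c hn hnc hk
    obtain ⟨hya, -⟩ := C.crhy a ha b hb hab
    obtain ⟨hya1, -⟩ := C.crhy a1 ha1 b hb h1b
    have hkap := C.kap a ha hya
    have ha1' : a1⁻¹ ∈ D := D.inv_mem ha1
    have nab := G.comm a ha b hb hab
    have nac := G.comm a ha c hc hac
    have n1b := G.comm a1 ha1 b hb h1b
    have n1c := G.comm a1 ha1 c hc h1c
    set P := τ a a1 with hPdef
    set Q := τ a a1⁻¹ with hQdef
    set k := κ a with hkdef
    have P0 : P ≠ 0 := C.nz a ha a1 ha1 hya hnc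
    have Q0 : Q ≠ 0 := C.nz a ha a1⁻¹ ha1' hya (nc_inv hnc)
    have hPQ : 0 < P * Q := by
      have : ¬ P * Q < 0 := fun h =>
        hn ((C.self a ha a1 ha1 a1⁻¹ ha1' hya hnc (nc_inv hnc)).2 h)
      exact lt_of_le_of_ne (not_lt.1 this) (mul_ne_zero P0 Q0).symm
    have xb : τ a b * τ a b⁻¹ < 0 :=
      (C.self a ha b hb b⁻¹ (D.inv_mem hb) hya nab (nc_inv nab)).1 hab
    have xc : τ a c * τ a c⁻¹ < 0 :=
      (C.self a ha c hc c⁻¹ (D.inv_mem hc) hya nac (nc_inv nac)).1 hac
    have sb := (C.sep a ha a1 ha1 b hb b⁻¹ (D.inv_mem hb) hya hya1 hnc nab (nc_inv nab) n1b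
      (nc_inv n1b)).1 h1b
    have sc := (C.sep a ha a1 ha1 c hc c⁻¹ (D.inv_mem hc) hya hya1 hnc nac (nc_inv nac) n1c
      (nc_inv n1c)).1 h1c
    -- the translate
    set a2 := a * a1 * a⁻¹ with ha2
    have ha2D : a2 ∈ D := D.mul_mem (D.mul_mem ha ha1) (D.inv_mem ha)
    have hn2 : ¬ Cr Sp a1 a2 := by
      have := hk 1
      rw [zpow_one] at this
      exact this
    have e2 : a2⁻¹ = a * a1⁻¹ * a⁻¹ := by rw [ha2]; group
    have naa2 : Nc a a2 := nc_conj hnc
    have n12 : Nc a1 a2 := by
      intro e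
      exact hnc (G.norm a ha a1 ha1 (ne_one_of_nc hnc) e.symm)
    have t2 : τ a a2 = k * P := C.tr a ha a1 ha1 hya hnc
    have t2' : τ a a2⁻¹ = k * Q := by
      rw [e2]
      exact C.tr a ha a1⁻¹ ha1' hya (nc_inv hnc)
    have s2 : 0 ≤ (k * P - P) * (k * P - Q) * ((k * Q - P) * (k * Q - Q)) := by
      have := C.sep a ha a1 ha1 a2 ha2D a2⁻¹ (D.inv_mem ha2D) hya hya1 hnc naa2 (nc_inv naa2) n12
        (nc_inv n12)
      rw [t2, t2'] at this
      by_contra hcon
      exact hn2 (this.2 (not_le.1 hcon))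
    constructor
    · intro hsd
      have hP : P < 0 := hsd
      have hQ : Q < 0 := by
        by_contra hcon
        push Not at hcon
        nlinarith
      have mb := real_sep _ _ _ _ xb hP hQ sb
      have mc := real_sep _ _ _ _ xc hP hQ sc
      exact real_near k P Q _ _ hkap hP hQ mb mc s2
    · intro hsd
      have hP : 0 < P := lt_of_le_of_ne (not_lt.1 hsd) P0.symm
      have hQ : 0 < Q := by
        by_contra hcon
        push Not at hcon
        nlinarith
      have mb := real_sep' _ _ _ _ xb hP hQ sb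
      have mc := real_sep' _ _ _ _ xc hP hQ sc
      have := real_near k (-P) (-Q) (-max (τ a b) (τ a b⁻¹)) (-max (τ a c) (τ a c⁻¹)) hkap
        (by linarith) (by linarith)
        (by
          have e : (-max (τ a b) (τ a b⁻¹) - -P) * (-max (τ a b) (τ a b⁻¹) - -Q) =
            (max (τ a b) (τ a b⁻¹) - P) * (max (τ a b) (τ a b⁻¹) - Q) := by ring
          rw [e]; exact mb)
        (by
          have e : (-max (τ a c) (τ a c⁻¹) - -P) * (-max (τ a c) (τ a c⁻¹) - -Q) =
            (max (τ a c) (τ a c⁻¹) - P) * (max (τ a c) (τ a c⁻¹) - Q) := by ring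
          rw [e]; exact mc)
        (by
          have e : (k * -P - -P) * (k * -P - -Q) * ((k * -Q - -P) * (k * -Q - -Q)) =
            (k * P - P) * (k * P - Q) * ((k * Q - P) * (k * Q - Q)) := by ring
          rw [e]; exact s2)
      rw [neg_neg, neg_neg] at this
      exact this
  · intro a ha b hb hab _ _
    obtain ⟨hya, hyb⟩ := C.crhy a ha b hb hab
    have hkap := C.kap a ha hya
    have nab := G.comm a ha b hb hab
    have hb1 : b ≠ 1 := ne_one_of_nc nab
    set B1 := a * b * a⁻¹ with hB1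
    set B0 := a⁻¹ * b * a with hB0
    have B1D : B1 ∈ D := D.mul_mem (D.mul_mem ha hb) (D.inv_mem ha)
    have B0D : B0 ∈ D := D.mul_mem (D.mul_mem (D.inv_mem ha) hb) ha
    have naB1 : Nc a B1 := nc_conj nab
    have naB0 : Nc a B0 := nc_conj' nab
    have nbB1 : Nc b B1 := by
      intro e
      exact nab (G.norm a ha b hb hb1 e.symm)
    have nbB0 : Nc b B0 := by
      intro e
      have h1 := G.norm a⁻¹ (D.inv_mem ha) b hb hb1 (by
        rw [inv_inv]
        exact e.symm)
      exact nab ((Commute.inv_left_iff (a := a) (b := b)).1 h1)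
    have x1 : τ b B1 ≠ 0 := C.nz b hb B1 B1D hyb nbB1
    have x0 : τ b B0 ≠ 0 := C.nz b hb B0 B0D hyb nbB0
    have xb : τ a b * τ a b⁻¹ < 0 :=
      (C.self a ha b hb b⁻¹ (D.inv_mem hb) hya nab (nc_inv nab)).1 hab
    have t1 : τ a B1 = κ a * τ a b := C.tr a ha b hb hya nab
    have t0 : τ a b = κ a * τ a B0 := by
      have h1 := C.tr a ha B0 B0D hya naB0
      have e : a * B0 * a⁻¹ = b := by rw [hB0]; group
      rw [e] at h1
      exact h1
    have hsp : Sp b B1 B0 := by
      rw [C.sep a ha b hb B1 B1D B0 B0D hya hyb nab naB1 naB0 nbB1 nbB0, t1]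
      set k := κ a with hk
      set X := τ a B0 with hX
      set y := τ a b⁻¹ with hydef
      rw [t0] at xb ⊢
      have hk0 : 0 < k := by linarith
      have key : 0 < (k * (k * X) - y) * (X - y) := by
        rcases mul_neg_iff.1 xb with ⟨q1, q2⟩ | ⟨q1, q2⟩
        · have hX0 : 0 < X := by
            by_contra hcon
            push Not at hcon
            nlinarith
          have : 0 < k * (k * X) := by positivity
          exact mul_pos (by linarith) (by linarith)
        · have hX0 : X < 0 := by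
            by_contra hcon
            push Not at hcon
            nlinarith
          have : k * (k * X) < 0 := mul_neg_of_pos_of_neg hk0 q1
          exact mul_pos_of_neg_of_neg (by linarith) (by linarith)
      have hX0 : X ≠ 0 := by
        rintro h0
        rw [h0] at xb
        simp at xb
      have hX2 : 0 < X * X := mul_self_pos.2 hX0
      have e : (k * (k * X) - k * X) * (k * (k * X) - y) * ((X - k * X) * (X - y)) =
          -(k * (k - 1) ^ 2 * (X * X) * ((k * (k * X) - y) * (X - y))) := by ring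
      rw [e]
      have : 0 < (k - 1) ^ 2 := by
        have : 0 < k - 1 := by linarith
        positivity
      have := mul_pos (mul_pos (mul_pos hk0 this) hX2) key
      linarith
    have hneg : τ b B1 * τ b B0 < 0 :=
      (C.self b hb B1 B1D B0 B0D hyb nbB1 nbB0).1 hsp
    change τ b B1 < 0 ↔ ¬ τ b B0 < 0
    rcases mul_neg_iff.1 hneg with ⟨q1, q2⟩ | ⟨q1, q2⟩
    · exact ⟨fun h => absurd h (not_lt.2 q1.le), fun h => absurd q2 h⟩
    · exact ⟨fun _ => not_lt.2 q2.le, fun _ => q1⟩

end Pool.Agent.Helper34.LN
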